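import Pool.Agent.R158.MM.Comb
import Pool.Agent.Y566.GQ.Gen

set_option autoImplicit false

/-!
# The quantifier of Magidor and Malitz for tame Borel sets of complex tuples
-/

namespace Pool.Agent.R158.MM

open Set Function MeasureTheory Pool.Agent.TH735.QM Pool.Agent.Y566.GQ
open scoped Cardinal

/-- Borel sets with countable or cocountable traces on analytic curves -/
def BC (m : ℕ) (X : Set (Fin m → ℂ)) : Prop := CQ m X ∧ MeasurableSet X

lemma BC.compl {m : ℕ} {X : Set (Fin m → ℂ)} (h : BC m X) : BC m Xᶜ :=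
  ⟨CQ.compl h.1, h.2.compl⟩

lemma BC.iUnion {m : ℕ} {ι : Type*} [Countable ι] {X : ι → Set (Fin m → ℂ)}
    (h : ∀ i, BC m (X i)) : BC m (⋃ i, X i) :=
  ⟨CQ.iUnion fun i => (h i).1, MeasurableSet.iUnion fun i => (h i).2⟩

lemma BC.iInter {m : ℕ} {ι : Type*} [Countable ι] {X : ι → Set (Fin m → ℂ)}
    (h : ∀ i, BC m (X i)) : BC m (⋂ i, X i) := by
  have h1 := (BC.iUnion fun i => (h i).compl).compl
  rwa [compl_iUnion, iInter_congr fun i => compl_compl (X i)] at h1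

lemma BC.preimage {m n : ℕ} {X : Set (Fin m → ℂ)} (h : BC m X)
    {f : (Fin n → ℂ) → (Fin m → ℂ)} (hf : AnalyticOnNhd ℂ f univ) : BC n (f ⁻¹' X) :=
  ⟨CQ.preimage h.1 hf, (continuousOn_univ.1 hf.continuousOn).measurable h.2⟩

/-- replacing a coordinate by the last one -/
def repl {N : ℕ} (j : Fin N) (w : Fin (N + 1) → ℂ) : Fin N → ℂ :=
  update (fun i => w (Fin.castSucc i)) j (w (Fin.last N))

lemma repl_snoc {N : ℕ} (j : Fin N) (v : Fin N → ℂ) (z : ℂ) :
    repl j (Fin.snoc (α := fun _ => ℂ) v z : Fin (N + 1) → ℂ) = update v j z := by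
  unfold repl
  simp only [Fin.snoc_castSucc, Fin.snoc_last]

lemma analytic_proj {N : ℕ} (i : Fin N) : AnalyticOnNhd ℂ (fun w : Fin N → ℂ => w i) univ :=
  fun w _ => (ContinuousLinearMap.proj (R := ℂ) (φ := fun _ : Fin N => ℂ) i).analyticAt w

lemma analytic_repl {N : ℕ} (j : Fin N) : AnalyticOnNhd ℂ (repl j) univ := by
  intro w hw
  refine analyticAt_pi_iff.2 fun i => ?_
  by_cases h : i = j
  · subst h
    have h1 : (fun w : Fin (N + 1) → ℂ => repl i w i) = fun w => w (Fin.last N) := by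
      funext w
      unfold repl
      rw [update_self]
    rw [h1]
    exact analytic_proj _ w hw
  · have h1 : (fun w : Fin (N + 1) → ℂ => repl j w i) = fun w => w (Fin.castSucc i) := by
      funext w
      unfold repl
      rw [update_of_ne h]
    rw [h1]
    exact analytic_proj _ w hw

lemma Sec_repl {N : ℕ} (j : Fin N) (X : Set (Fin N → ℂ)) (v : Fin N → ℂ) :
    Sec (repl j ⁻¹' X) v = {z : ℂ | update v j z ∈ X} := by
  ext z
  show repl j (Fin.snoc (α := fun _ => ℂ) v z : Fin (N + 1) → ℂ) ∈ X ↔ update v j z ∈ X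
  rw [repl_snoc]

lemma BC.sec {N : ℕ} {X : Set (Fin N → ℂ)} (h : BC N X) (j : Fin N) (v : Fin N → ℂ) :
    {z : ℂ | update v j z ∈ X}.Countable ∨ {z : ℂ | update v j z ∈ X}ᶜ.Countable := by
  rw [← Sec_repl]
  exact Sec_qm (h.preimage (analytic_repl j)).1 v

lemma BC.unc {N : ℕ} {X : Set (Fin N → ℂ)} (h : BC N X) (j : Fin N) :
    BC N {v | ¬ {z : ℂ | update v j z ∈ X}.Countable} := by
  have h1 := h.preimage (analytic_repl j)
  have h2 : {v | ¬ {z : ℂ | update v j z ∈ X}.Countable} =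
      {v | ¬ (Sec (repl j ⁻¹' X) v).Countable} := by
    ext v
    show ¬ _ ↔ ¬ _
    rw [Sec_repl]
  rw [h2]
  exact ⟨CQ_unc h1.1 h1.2, meas_unc h1.1 h1.2⟩

/-- the iterated quantifiers with parameters -/
def ItU {m k : ℕ} (X : Set (Fin (m + k) → ℂ)) : List (Fin k) → Set (Fin (m + k) → ℂ)
  | [] => X
  | i :: l => {v | ¬ {z : ℂ | update v (Fin.natAdd m i) z ∈ ItU X l}.Countable}

lemma BC.itU {m k : ℕ} {X : Set (Fin (m + k) → ℂ)} (h : BC (m + k) X) :
    ∀ l : List (Fin k), BC (m + k) (ItU X l) := by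
  intro l
  induction l with
  | nil => exact h
  | cons i l ih => exact ih.unc (Fin.natAdd m i)

lemma append_update {m k : ℕ} (s : Fin m → ℂ) (x : Fin k → ℂ) (i : Fin k) (z : ℂ) :
    (Fin.append s (update x i z) : Fin (m + k) → ℂ) =
      update (Fin.append s x : Fin (m + k) → ℂ) (Fin.natAdd m i) z := by
  funext j
  refine Fin.addCases (fun a => ?_) (fun b => ?_) j
  · rw [Fin.append_left, update_of_ne, Fin.append_left]
    intro h
    have h1 := congrArg Fin.val h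
    simp only [Fin.val_castAdd, Fin.val_natAdd] at h1
    omega
  · rw [Fin.append_right]
    by_cases hb : b = i
    · subst hb
      rw [update_self, update_self]
    · rw [update_of_ne hb, update_of_ne, Fin.append_right]
      intro h
      apply hb
      have h1 := congrArg Fin.val h
      simp only [Fin.val_natAdd] at h1
      exact Fin.ext (by omega)

lemma mem_ItU {m k : ℕ} (X : Set (Fin (m + k) → ℂ)) (s : Fin m → ℂ) :
    ∀ (l : List (Fin k)) (x : Fin k → ℂ), (Fin.append s x : Fin (m + k) → ℂ) ∈ ItU X l ↔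
      x ∈ It {x : Fin k → ℂ | (Fin.append s x : Fin (m + k) → ℂ) ∈ X} l := by
  intro l
  induction l with
  | nil => exact fun x => Iff.rfl
  | cons i l ih =>
    intro x
    show ¬ {z : ℂ | update (Fin.append s x : Fin (m + k) → ℂ) (Fin.natAdd m i) z ∈
      ItU X l}.Countable ↔ ¬ {z : ℂ | update x i z ∈ It {x : Fin k → ℂ |
        (Fin.append s x : Fin (m + k) → ℂ) ∈ X} l}.Countable
    have h : {z : ℂ | update (Fin.append s x : Fin (m + k) → ℂ) (Fin.natAdd m i) z ∈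
      ItU X l} = {z : ℂ | update x i z ∈ It {x : Fin k → ℂ |
        (Fin.append s x : Fin (m + k) → ℂ) ∈ X} l} := by
      ext z
      show update (Fin.append s x : Fin (m + k) → ℂ) (Fin.natAdd m i) z ∈ ItU X l ↔ _
      rw [← append_update]
      exact ih _
    rw [h]

lemma analytic_append {m k : ℕ} : AnalyticOnNhd ℂ
    (fun s : Fin m → ℂ => (Fin.append s (fun _ : Fin k => (0 : ℂ)) : Fin (m + k) → ℂ)) univ := by
  intro s hs
  refine analyticAt_pi_iff.2 fun j => ?_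
  refine Fin.addCases (fun a => ?_) (fun b => ?_) j
  · simp only [Fin.append_left]
    exact analytic_proj a s hs
  · simp only [Fin.append_right]
    exact analyticAt_const

lemma BC.tame {m k : ℕ} {X : Set (Fin (m + k) → ℂ)} (h : BC (m + k) X) (s : Fin m → ℂ) :
    Tame {x : Fin k → ℂ | (Fin.append s x : Fin (m + k) → ℂ) ∈ X} := by
  intro l x i
  have h1 : {z : ℂ | update x i z ∈ It {x : Fin k → ℂ |
        (Fin.append s x : Fin (m + k) → ℂ) ∈ X} l} =
      {z : ℂ | update (Fin.append s x : Fin (m + k) → ℂ) (Fin.natAdd m i) z ∈ ItU X l} := by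
    ext z
    show _ ↔ update (Fin.append s x : Fin (m + k) → ℂ) (Fin.natAdd m i) z ∈ ItU X l
    rw [← append_update]
    exact (mem_ItU X s l _).symm
  rw [h1]
  exact (h.itU l).sec _ _

/-- the elimination, with parameters -/
theorem mm_iff {m : ℕ} {X : (k : ℕ) → (Fin k → ℕ) → Set (Fin (m + k) → ℂ)}
    (h : ∀ k c, BC (m + k) (X k c))
    {κ : ℕ → Cardinal.{0}} (hκ : ∀ n, ℵ₀ < κ n) (hκ' : ∀ n, κ n ≤ 𝔠) (s : Fin m → ℂ) :
    (∃ H : ℕ → Set ℂ, (∀ n, κ n ≤ #(H n)) ∧ ∀ (k : ℕ) (c : Fin k → ℕ) (x : Fin k → ℂ),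
      Injective x → (∀ i, x i ∈ H (c i)) → (Fin.append s x : Fin (m + k) → ℂ) ∈ X k c) ↔
    ∀ (k : ℕ) (c : Fin k → ℕ) (l : List (Fin k)), l.Nodup → (∀ i, i ∈ l) →
      (Fin.append s (fun _ : Fin k => (0 : ℂ)) : Fin (m + k) → ℂ) ∈ ItU (X k c) l := by
  have h1 := homogeneous_iff
    (fun k c => {x : Fin k → ℂ | (Fin.append s x : Fin (m + k) → ℂ) ∈ X k c})
    (fun k c => (h k c).tame s) hκ hκ'
  refine h1.trans ?_
  refine forall_congr' fun k => forall_congr' fun c => forall_congr' fun l => ?_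
  rw [mem_ItU]

/-- one homogeneous set of the cardinality of the continuum -/
theorem mm_one {m : ℕ} {X : (k : ℕ) → (Fin k → ℕ) → Set (Fin (m + k) → ℂ)}
    (h : ∀ k c, BC (m + k) (X k c)) (s : Fin m → ℂ) {H : ℕ → Set ℂ}
    (hH : ∀ n, ¬ (H n).Countable) (hs : ∀ (k : ℕ) (c : Fin k → ℕ) (x : Fin k → ℂ),
      Injective x → (∀ i, x i ∈ H (c i)) → (Fin.append s x : Fin (m + k) → ℂ) ∈ X k c) :
    ∃ H' : Set ℂ, #H' = 𝔠 ∧ ∀ (k : ℕ) (c : Fin k → ℕ) (x : Fin k → ℂ),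
      Injective x → (∀ i, x i ∈ H') → (Fin.append s x : Fin (m + k) → ℂ) ∈ X k c := by
  obtain ⟨H', h1, h2⟩ := homogeneous_of_It (J := Σ k : ℕ, (Fin k → ℕ)) (ar := fun p => p.1)
    (fun p => {x : Fin p.1 → ℂ | (Fin.append s x : Fin (m + p.1) → ℂ) ∈ X p.1 p.2})
    (fun p => (h p.1 p.2).tame s) (fun p l _ hl =>
      It_of_homogeneous (H := fun i => H (p.2 i)) (fun i => hH _) (hs p.1 p.2) l _
        (fun i hi => absurd (hl i) hi) (fun i _ hi => absurd (hl i) hi))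
  exact ⟨H', le_antisymm ((Cardinal.mk_set_le H').trans_eq Cardinal.mk_complex) h1,
    fun k c x hx hxH => h2 ⟨k, c⟩ x hx hxH⟩

theorem BC.mm {m : ℕ} {X : (k : ℕ) → (Fin k → ℕ) → Set (Fin (m + k) → ℂ)}
    (h : ∀ k c, BC (m + k) (X k c)) {κ : ℕ → Cardinal.{0}} (hκ : ∀ n, ℵ₀ < κ n) :
    BC m {s | ∃ H : ℕ → Set ℂ, (∀ n, κ n ≤ #(H n)) ∧
      ∀ (k : ℕ) (c : Fin k → ℕ) (x : Fin k → ℂ), Injective x →
      (∀ i, x i ∈ H (c i)) → (Fin.append s x : Fin (m + k) → ℂ) ∈ X k c} := by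
  by_cases hκ' : ∀ n, κ n ≤ 𝔠
  · have h1 : {s : Fin m → ℂ | ∃ H : ℕ → Set ℂ, (∀ n, κ n ≤ #(H n)) ∧
        ∀ (k : ℕ) (c : Fin k → ℕ) (x : Fin k → ℂ),
        Injective x → (∀ i, x i ∈ H (c i)) → (Fin.append s x : Fin (m + k) → ℂ) ∈ X k c} =
        ⋂ p : Σ p : (Σ k : ℕ, (Fin k → ℕ)), {l : List (Fin p.1) // l.Nodup ∧ ∀ i, i ∈ l},
          (fun s : Fin m → ℂ => (Fin.append s (fun _ : Fin p.1.1 => (0 : ℂ)) :
            Fin (m + p.1.1) → ℂ)) ⁻¹' (ItU (X p.1.1 p.1.2) p.2.1) := by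
      ext s
      rw [mem_iInter]
      refine (mm_iff h hκ hκ' s).trans ⟨fun h2 p => h2 p.1.1 p.1.2 p.2.1 p.2.2.1 p.2.2.2,
        fun h2 k c l hl hl' => h2 ⟨⟨k, c⟩, l, hl, hl'⟩⟩
    rw [h1]
    exact BC.iInter fun p => ((h p.1.1 p.1.2).itU p.2.1).preimage analytic_append
  · have h1 : {s : Fin m → ℂ | ∃ H : ℕ → Set ℂ, (∀ n, κ n ≤ #(H n)) ∧
        ∀ (k : ℕ) (c : Fin k → ℕ) (x : Fin k → ℂ),
        Injective x → (∀ i, x i ∈ H (c i)) → (Fin.append s x : Fin (m + k) → ℂ) ∈ X k c} =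
        (⋃ i : Empty, (Empty.elim i : Set (Fin m → ℂ))) := by
      ext s
      constructor
      · rintro ⟨H, hH, -⟩
        exact absurd (fun n => (hH n).trans
          ((Cardinal.mk_set_le (H n)).trans_eq Cardinal.mk_complex)) hκ'
      · intro hs
        obtain ⟨i, -⟩ := mem_iUnion.1 hs
        exact i.elim
    rw [h1]
    exact BC.iUnion fun i => i.elim

end Pool.Agent.R158.MM
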