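import Mathlib

set_option autoImplicit false

/-!
# Uncountable homogeneous sets and iterated quantifiers for uncountably many

If the sections of all the sets `Y k` of `k`-tuples, and of the sets which are obtained from them by
quantifiers 'for uncountably many', are countable or cocountable, then there is an uncountable set
all of whose injective `k`-tuples are in `Y k`, for every `k`, if and only if for every `k` and
every ordering of the variables the iterated quantifier 'for uncountably many' holds. More
generally there can be several homogeneous sets, of prescribed uncountable cardinalities.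
-/

namespace Pool.Agent.R158.MM

open Set Function Cardinal
open scoped Cardinal

variable {k : ℕ}

/-- the quantifier 'for uncountably many values of the `i`-th coordinate' -/
def G (i : Fin k) (Y : Set (Fin k → ℂ)) : Set (Fin k → ℂ) :=
  {x | ¬ {z : ℂ | update x i z ∈ Y}.Countable}

/-- the iterated quantifier -/
def It (Y : Set (Fin k → ℂ)) : List (Fin k) → Set (Fin k → ℂ)
  | [] => Y
  | i :: l => G i (It Y l)

lemma It_congr (Y : Set (Fin k → ℂ)) : ∀ (l : List (Fin k)) (x x' : Fin k → ℂ),
    (∀ i, i ∉ l → x i = x' i) → (x ∈ It Y l ↔ x' ∈ It Y l) := by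
  intro l
  induction l with
  | nil =>
    intro x x' h
    have : x = x' := funext fun i => h i (by simp)
    rw [this]
  | cons i l ih =>
    intro x x' h
    have h1 : {z : ℂ | update x i z ∈ It Y l} = {z : ℂ | update x' i z ∈ It Y l} := by
      ext z
      refine ih _ _ fun j hj => ?_
      by_cases hji : j = i
      · subst hji
        simp
      · rw [update_of_ne hji, update_of_ne hji]
        exact h j (by simp [hji, hj])
    show ¬ _ ↔ ¬ _
    rw [h1]

/-- all sections of the iterated sets are countable or cocountable -/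
def Tame (Y : Set (Fin k → ℂ)) : Prop :=
  ∀ (l : List (Fin k)) (x : Fin k → ℂ) (i : Fin k),
    {z : ℂ | update x i z ∈ It Y l}.Countable ∨ {z : ℂ | update x i z ∈ It Y l}ᶜ.Countable

/-- uncountable homogeneous sets give the iterated quantifiers -/
lemma It_of_homogeneous {Y : Set (Fin k → ℂ)} {H : Fin k → Set ℂ} (hH : ∀ i, ¬ (H i).Countable)
    (h : ∀ x : Fin k → ℂ, Injective x → (∀ i, x i ∈ H i) → x ∈ Y) :
    ∀ (l : List (Fin k)) (x : Fin k → ℂ), (∀ i, i ∉ l → x i ∈ H i) →
      (∀ i j, i ∉ l → j ∉ l → x i = x j → i = j) → x ∈ It Y l := by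
  intro l
  induction l with
  | nil =>
    intro x hx hinj
    exact h x (fun i j hij => hinj i j (by simp) (by simp) hij) fun i => hx i (by simp)
  | cons i l ih =>
    intro x hx hinj
    show ¬ {z : ℂ | update x i z ∈ It Y l}.Countable
    intro hc
    refine hH i ((hc.union (Set.finite_range x).countable).mono ?_)
    intro z hz
    by_cases hzx : z ∈ Set.range x
    · exact Or.inr hzx
    · left
      refine ih _ (fun j hj => ?_) (fun a b ha hb hab => ?_)
      · by_cases hji : j = i
        · subst hji
          rw [update_self]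
          exact hz
        · rw [update_of_ne hji]
          exact hx j (by simp [hji, hj])
      · by_cases hai : a = i
        · by_cases hbi : b = i
          · rw [hai, hbi]
          · rw [hai, update_self, update_of_ne hbi] at hab
            exact absurd ⟨b, hab.symm⟩ hzx
        · by_cases hbi : b = i
          · rw [hbi, update_self, update_of_ne hai] at hab
            exact absurd ⟨a, hab⟩ hzx
          · rw [update_of_ne hai, update_of_ne hbi] at hab
            exact hinj a b (by simp [hai, ha]) (by simp [hbi, hb]) hab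

/-- the partial assignment `x` on `A` is generic -/
def Good (Y : Set (Fin k → ℂ)) (A : Finset (Fin k)) (x : Fin k → ℂ) : Prop :=
  ∀ l : List (Fin k), l.Nodup → (∀ i, i ∈ l ↔ i ∉ A) → x ∈ It Y l

lemma Good.congr {Y : Set (Fin k → ℂ)} {A : Finset (Fin k)} {x x' : Fin k → ℂ}
    (h : Good Y A x) (hx : ∀ i ∈ A, x i = x' i) : Good Y A x' := by
  intro l hl hA
  refine (It_congr Y l x x' fun i hi => hx i ?_).1 (h l hl hA)
  by_contra hiA
  exact hi ((hA i).2 hiA)

lemma Good.step {Y : Set (Fin k → ℂ)} (hY : Tame Y) {A : Finset (Fin k)} {x : Fin k → ℂ}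
    (h : Good Y A x) {i : Fin k} (hi : i ∉ A) :
    {z : ℂ | ¬ Good Y (insert i A) (update x i z)}.Countable := by
  have h1 : {z : ℂ | ¬ Good Y (insert i A) (update x i z)} ⊆
      ⋃ l : {l : List (Fin k) // l.Nodup ∧ ∀ j, j ∈ l ↔ j ∉ insert i A},
        {z : ℂ | update x i z ∈ It Y l.1}ᶜ := by
    intro z hz
    have hz' : ¬ Good Y (insert i A) (update x i z) := hz
    unfold Good at hz'
    push Not at hz'
    obtain ⟨l, hl, hA, hzl⟩ := hz'
    exact mem_iUnion.2 ⟨⟨l, hl, hA⟩, hzl⟩
  refine (countable_iUnion fun l => ?_).mono h1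
  obtain ⟨l, hl, hA⟩ := l
  have h2 : x ∈ It Y (i :: l) := by
    refine h (i :: l) ?_ ?_
    · rw [List.nodup_cons]
      refine ⟨fun hil => ?_, hl⟩
      exact (hA i).1 hil (Finset.mem_insert_self _ _)
    · intro j
      rw [List.mem_cons, hA j, Finset.mem_insert, not_or]
      constructor
      · rintro (rfl | h3)
        · exact hi
        · exact h3.2
      · intro h3
        by_cases hji : j = i
        · exact Or.inl hji
        · exact Or.inr ⟨hji, h3⟩
  exact (hY l x i).resolve_left h2

/-- the number of the finite configurations in a set of cardinality less than that of the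
continuum -/
lemma mk_config_lt {J : Type} [Countable J] (ar : J → ℕ) {T : Set ℂ} (hT : #T < 𝔠) :
    #(Σ j : J, (Finset (Fin (ar j))) × (Fin (ar j) → T) × Fin (ar j)) < 𝔠 := by
  have h1 : #(Σ j : J, (Finset (Fin (ar j))) × (Fin (ar j) → T) × Fin (ar j)) ≤
      #((Σ j : J, (Finset (Fin (ar j))) × Fin (ar j)) × List T) := by
    refine Cardinal.mk_le_of_injective
      (f := fun p : (Σ j : J, (Finset (Fin (ar j))) × (Fin (ar j) → T) × Fin (ar j)) =>
        ((⟨p.1, p.2.1, p.2.2.2⟩ : (Σ j : J, (Finset (Fin (ar j))) × Fin (ar j))),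
          List.ofFn p.2.2.1)) ?_
    rintro ⟨k, A, x, i⟩ ⟨k', A', x', i'⟩ h
    simp only [Prod.mk.injEq] at h
    obtain ⟨h1, h2⟩ := h
    obtain rfl : k = k' := congrArg Sigma.fst h1
    have h3 := eq_of_heq (Sigma.mk.inj h1).2
    obtain ⟨rfl, rfl⟩ := Prod.mk.inj h3
    obtain rfl := List.ofFn_injective h2
    rfl
  refine h1.trans_lt ?_
  rw [Cardinal.mk_prod, Cardinal.lift_id, Cardinal.lift_id]
  refine Cardinal.mul_lt_of_lt Cardinal.aleph0_le_continuum ?_ ?_
  · exact (Cardinal.mk_le_aleph0 (α := Σ j : J, (Finset (Fin (ar j))) × Fin (ar j))).trans_lt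
      Cardinal.aleph0_lt_continuum
  · exact (Cardinal.mk_list_le_max T).trans_lt (max_lt Cardinal.aleph0_lt_continuum hT)

/-- the iterated quantifiers give a homogeneous set of the cardinality of the continuum -/
theorem homogeneous_of_It {J : Type} [Countable J] {ar : J → ℕ}
    (Y : (j : J) → Set (Fin (ar j) → ℂ)) (hY : ∀ j, Tame (Y j))
    (h0 : ∀ (j : J) (l : List (Fin (ar j))), l.Nodup → (∀ i, i ∈ l) →
      (fun _ => 0) ∈ It (Y j) l) :
    ∃ H : Set ℂ, 𝔠 ≤ #H ∧ ∀ (j : J) (x : Fin (ar j) → ℂ), Injective x → (∀ i, x i ∈ H) →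
      x ∈ Y j := by
  · classical
    set S : Set (Set ℂ) := {H | ∀ (k : J) (A : Finset (Fin (ar k))) (x : Fin (ar k) → ℂ),
      InjOn x A → (∀ i ∈ A, x i ∈ H) → Good (Y k) A x} with hS
    have hempty : (∅ : Set ℂ) ∈ S := by
      intro k A x _ hx
      have hA : A = ∅ := by
        rw [Finset.eq_empty_iff_forall_notMem]
        intro i hi
        exact hx i hi
      subst hA
      intro l hl hl'
      refine (It_congr (Y k) l (fun _ => 0) x fun i hi => ?_).1 (h0 k l hl fun i => ?_)
      · exact absurd ((hl' i).2 (Finset.notMem_empty i)) hi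
      · exact (hl' i).2 (Finset.notMem_empty i)
    obtain ⟨H, hHmax⟩ := zorn_subset S (by
      intro c hc hchain
      rcases c.eq_empty_or_nonempty with hc0 | hc0
      · exact ⟨∅, hempty, fun s hs => by rw [hc0] at hs; exact absurd hs (Set.notMem_empty s)⟩
      · refine ⟨⋃₀ c, ?_, fun s hs => subset_sUnion_of_mem hs⟩
        intro k A x hinj hx
        have hdir : DirectedOn (fun a b : Set ℂ => a ⊆ b) c := hchain.directedOn
        have hfin : ∃ T ∈ c, ((A.image x : Finset ℂ) : Set ℂ) ⊆ T := by
          refine DirectedOn.exists_mem_subset_of_finset_subset_biUnion (f := fun T : Set ℂ => T)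
            hc0 hdir ?_
          intro z hz
          obtain ⟨i, hi, rfl⟩ := Finset.mem_image.1 (Finset.mem_coe.1 hz)
          obtain ⟨T, hT, hxT⟩ := mem_sUnion.1 (hx i hi)
          exact mem_biUnion hT hxT
        obtain ⟨T, hT, hAT⟩ := hfin
        exact hc hT k A x hinj fun i hi =>
          hAT (Finset.mem_coe.2 (Finset.mem_image_of_mem x hi)))
    have hHS : H ∈ S := hHmax.1
    refine ⟨H, ?_, fun k x hinj hx => ?_⟩
    · -- a further point
      by_contra hcc
      have hc : #H < 𝔠 := not_le.1 hcc
      have hc' : #(insert 0 H : Set ℂ) < 𝔠 := by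
        refine Cardinal.mk_insert_le.trans_lt ?_
        exact Cardinal.add_lt_of_lt Cardinal.aleph0_le_continuum hc
          (Cardinal.one_lt_aleph0.trans Cardinal.aleph0_lt_continuum)
      let I : Type := Σ k : J, (Finset (Fin (ar k))) × (Fin (ar k) → (insert 0 H : Set ℂ)) ×
        Fin (ar k)
      have hIc : #I < 𝔠 := mk_config_lt ar hc'
      let E : I → Set ℂ := fun p =>
        {z : ℂ | Good (Y p.1) p.2.1 (fun j => (p.2.2.1 j : ℂ)) ∧ p.2.2.2 ∉ p.2.1 ∧
          ¬ Good (Y p.1) (insert p.2.2.2 p.2.1) (update (fun j => (p.2.2.1 j : ℂ)) p.2.2.2 z)}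
      have hE : ∀ p, (E p).Countable := by
        intro p
        by_cases hp : Good (Y p.1) p.2.1 (fun j => (p.2.2.1 j : ℂ)) ∧ p.2.2.2 ∉ p.2.1
        · exact (Good.step (hY _) hp.1 hp.2).mono fun z hz => hz.2.2
        · refine Set.countable_empty.mono ?_
          intro z hz
          exact absurd ⟨hz.1, hz.2.1⟩ hp
      have hU : #(H ∪ ⋃ p, E p : Set ℂ) < 𝔠 := by
        refine (Cardinal.mk_union_le _ _).trans_lt ?_
        refine Cardinal.add_lt_of_lt Cardinal.aleph0_le_continuum hc ?_
        refine (Cardinal.mk_iUnion_le _).trans_lt ?_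
        refine Cardinal.mul_lt_of_lt Cardinal.aleph0_le_continuum hIc ?_
        refine lt_of_le_of_lt (ciSup_le' fun p => ?_) Cardinal.aleph0_lt_continuum
        exact Cardinal.le_aleph0_iff_set_countable.2 (hE p)
      obtain ⟨z0, hz0⟩ : ∃ z0 : ℂ, z0 ∉ H ∪ ⋃ p, E p := by
        by_contra hcon
        push Not at hcon
        have h5 : (H ∪ ⋃ p, E p : Set ℂ) = Set.univ := Set.eq_univ_of_forall hcon
        rw [h5, Cardinal.mk_univ, Cardinal.mk_complex] at hU
        exact lt_irrefl _ hU
      have hz0H : z0 ∉ H := fun h => hz0 (Or.inl h)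
      have hz0E : ∀ p, z0 ∉ E p := fun p h => hz0 (Or.inr (mem_iUnion.2 ⟨p, h⟩))
      have hins : insert z0 H ∈ S := by
        intro k A x hinj hx
        by_cases hex : ∃ i ∈ A, x i = z0
        · obtain ⟨i, hiA, hi⟩ := hex
          classical
          let x' : Fin (ar k) → (insert 0 H : Set ℂ) := fun j =>
            if h : j ∈ A.erase i then ⟨x j, by
              have h1 : j ∈ A := Finset.mem_of_mem_erase h
              rcases hx j h1 with h2 | h2
              · exfalso
                exact Finset.ne_of_mem_erase h (hinj (Finset.mem_coe.2 h1)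
                  (Finset.mem_coe.2 hiA) (h2.trans hi.symm))
              · exact Or.inr h2⟩ else ⟨0, Or.inl rfl⟩
          have hx'1 : ∀ j, j ∈ A.erase i → (x' j : ℂ) = x j := by
            intro j hj
            simp only [x', dif_pos hj]
          have hg : Good (Y k) (A.erase i) (fun j => (x' j : ℂ)) := by
            refine hHS k (A.erase i) _ ?_ ?_
            · intro a ha b hb hab
              have hab' : (x' a : ℂ) = x' b := hab
              rw [hx'1 a ha, hx'1 b hb] at hab'
              exact hinj (Finset.mem_coe.2 (Finset.mem_of_mem_erase ha))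
                (Finset.mem_coe.2 (Finset.mem_of_mem_erase hb)) hab'
            · intro j hj
              show (x' j : ℂ) ∈ H
              rw [hx'1 j hj]
              rcases hx j (Finset.mem_of_mem_erase hj) with h2 | h2
              · exfalso
                exact Finset.ne_of_mem_erase hj (hinj (Finset.mem_coe.2
                  (Finset.mem_of_mem_erase hj)) (Finset.mem_coe.2 hiA) (h2.trans hi.symm))
              · exact h2
          have h3 := hz0E ⟨k, A.erase i, x', i⟩
          have h4 : Good (Y k) (insert i (A.erase i)) (update (fun j => (x' j : ℂ)) i z0) := by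
            by_contra hcon
            exact h3 ⟨hg, Finset.notMem_erase i A, hcon⟩
          rw [Finset.insert_erase hiA] at h4
          refine h4.congr fun j hj => ?_
          by_cases hji : j = i
          · subst hji
            rw [update_self, hi]
          · rw [update_of_ne hji]
            exact hx'1 j (Finset.mem_erase.2 ⟨hji, hj⟩)
        · push Not at hex
          refine hHS k A x hinj fun i hi => ?_
          rcases hx i hi with h2 | h2
          · exact absurd h2 (hex i hi)
          · exact h2
      exact hz0H (hHmax.2 hins (subset_insert z0 H) (mem_insert z0 H))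
    · have h1 := hHS k Finset.univ x hinj.injOn fun i _ => hx i
      exact h1 [] List.nodup_nil (by simp)

/-- **The elimination of the quantifiers of Magidor and Malitz**: for uncountable cardinals `κ n`,
at most that of the continuum, there are homogeneous sets `H n` of cardinality at least `κ n` if and
only if the iterated quantifiers hold. -/
theorem homogeneous_iff (Y : (k : ℕ) → (Fin k → ℕ) → Set (Fin k → ℂ))
    (hY : ∀ k c, Tame (Y k c)) {κ : ℕ → Cardinal.{0}} (hκ : ∀ n, ℵ₀ < κ n) (hκ' : ∀ n, κ n ≤ 𝔠) :
    (∃ H : ℕ → Set ℂ, (∀ n, κ n ≤ #(H n)) ∧ ∀ (k : ℕ) (c : Fin k → ℕ) (x : Fin k → ℂ),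
      Injective x → (∀ i, x i ∈ H (c i)) → x ∈ Y k c) ↔
    ∀ (k : ℕ) (c : Fin k → ℕ) (l : List (Fin k)), l.Nodup → (∀ i, i ∈ l) →
      (fun _ => 0) ∈ It (Y k c) l := by
  constructor
  · rintro ⟨H, hH, h⟩ k c l _ hl
    have hH' : ∀ n, ¬ (H n).Countable := fun n hc =>
      absurd ((hκ n).trans_le (hH n)) (not_lt.2 (Cardinal.le_aleph0_iff_set_countable.2 hc))
    exact It_of_homogeneous (H := fun i => H (c i)) (fun i => hH' _) (h k c) l _
      (fun i hi => absurd (hl i) hi) (fun i _ hi => absurd (hl i) hi)
  · intro h0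
    obtain ⟨H, hH, h⟩ := homogeneous_of_It (J := Σ k : ℕ, (Fin k → ℕ)) (ar := fun p => p.1)
      (fun p => Y p.1 p.2) (fun p => hY p.1 p.2) (fun p => h0 p.1 p.2)
    exact ⟨fun _ => H, fun n => (hκ' n).trans hH, fun k c x hx hxH => h ⟨k, c⟩ x hx hxH⟩

end Pool.Agent.R158.MM
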