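import Pool.Agent.R158.MM.Close
import Pool.Agent.Y566.GQ.Msr

set_option autoImplicit false

/-!
# Integrals over parameter spaces
-/

namespace Pool.Agent.R158.MM

open Set Function MeasureTheory Pool.Agent.TH735.QM Pool.Agent.Y566.GQ
open scoped ENNReal

/-- a function all of whose superlevel sets are countable or cocountable in `U` is constant outside
of a countable set -/
lemma const_off {U : Set ℂ} {f : ℂ → ℝ≥0∞} (h : ∀ q : ℝ≥0∞, QmOn U {t | q < f t}) :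
    ∃ B : Set ℂ, B.Countable ∧ ∀ t ∈ U, t ∉ B → ∀ t' ∈ U, t' ∉ B → f t = f t' := by
  choose B hB hBq using fun q : ℚ =>
    Pool.Agent.Y566.GQ.QmOn.const (h ((Real.toNNReal (q : ℝ) : NNReal) : ℝ≥0∞))
  refine ⟨⋃ q, B q, countable_iUnion hB, fun t ht htB t' ht' htB' => ?_⟩
  have key : ∀ a ∈ U, a ∉ ⋃ q, B q → ∀ b ∈ U, b ∉ ⋃ q, B q → ¬ f a < f b := by
    intro a ha haB b hb hbB hlt
    obtain ⟨q, -, h1, h2⟩ := ENNReal.lt_iff_exists_rat_btwn.1 hlt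
    have h3 := (hBq q b hb (fun h => hbB (mem_iUnion.2 ⟨q, h⟩)) a ha
      (fun h => haB (mem_iUnion.2 ⟨q, h⟩))).1 h2
    exact absurd h3 (not_lt.2 h1.le)
  exact le_antisymm (not_lt.1 (key t' ht' htB' t ht htB)) (not_lt.1 (key t ht htB t' ht' htB'))

theorem BC.integral {m : ℕ} {Y : Type*} [MeasurableSpace Y] (μ : Measure Y) [SFinite μ]
    (φ : (Fin m → ℂ) → Y → ℝ≥0∞) (hφ : Measurable (fun p : (Fin m → ℂ) × Y => φ p.1 p.2))
    (h : ∀ (y : Y) (r : ℝ≥0∞), CQ m {s | r < φ s y}) (r : ℝ≥0∞) :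
    BC m {s | r < ∫⁻ y, φ s y ∂μ} := by
  classical
  have hI : Measurable (fun s : Fin m → ℂ => ∫⁻ y, φ s y ∂μ) := Measurable.lintegral_prod_right' hφ
  have hG : MeasurableSet {s : Fin m → ℂ | r < ∫⁻ y, φ s y ∂μ} :=
    measurableSet_lt measurable_const hI
  refine ⟨?_, hG⟩
  intro U hU hUc γ hγ
  by_contra hcon
  unfold QmOn at hcon
  push Not at hcon
  obtain ⟨hc1, hc0⟩ := hcon
  set G : Set (Fin m → ℂ) := {s : Fin m → ℂ | r < ∫⁻ y, φ s y ∂μ} with hGdef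
  have hγc : ContinuousOn γ U := hγ.continuousOn
  have hγm : Measurable (U.piecewise γ (fun _ => 0)) :=
    hγc.measurable_piecewise continuousOn_const hU.measurableSet
  set γ' := U.piecewise γ (fun _ => 0) with hγ'
  have heq : ∀ t ∈ U, γ' t = γ t := fun t ht => Set.piecewise_eq_of_mem _ _ _ ht
  have hA1 : U ∩ γ ⁻¹' G = U ∩ γ' ⁻¹' G := by
    ext t
    constructor
    · rintro ⟨ht, h⟩
      exact ⟨ht, by rw [mem_preimage, heq t ht]; exact h⟩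
    · rintro ⟨ht, h⟩
      exact ⟨ht, by rw [mem_preimage, heq t ht] at h; exact h⟩
  have hA1m : MeasurableSet (U ∩ γ ⁻¹' G) := by
    rw [hA1]
    exact hU.measurableSet.inter (hγm hG)
  have hA0m : MeasurableSet (U \ γ ⁻¹' G) := by
    have : U \ γ ⁻¹' G = U \ (U ∩ γ ⁻¹' G) := by
      ext t
      simp only [Set.mem_sdiff, Set.mem_inter_iff]
      tauto
    rw [this]
    exact hU.measurableSet.diff hA1m
  obtain ⟨ν1, hf1, hs1, hu1, hz1⟩ := exists_atomless hA1m hc1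
  obtain ⟨ν0, hf0, hs0, hu0, hz0⟩ := exists_atomless hA0m hc0
  -- the function on the curve
  have hf : Measurable (fun p : ℂ × Y => φ (γ' p.1) p.2) :=
    hφ.comp ((hγm.comp measurable_fst).prodMk measurable_snd)
  have hIγ : Measurable (fun t : ℂ => ∫⁻ y, φ (γ' t) y ∂μ) := hI.comp hγm
  have key : ∀ y, ν0 univ * ∫⁻ t, φ (γ' t) y ∂ν1 = ν1 univ * ∫⁻ t, φ (γ' t) y ∂ν0 := by
    intro y
    obtain ⟨B, hB, hBt⟩ := const_off (U := U) (f := fun t => φ (γ t) y)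
      (fun q => h y q U hU hUc γ hγ)
    obtain ⟨t0, ht0, ht0B⟩ : ∃ t0 ∈ U, t0 ∉ B := by
      by_contra hno
      push Not at hno
      exact hc1 (hB.mono fun t ht => hno t ht.1)
    have e1 : ∫⁻ t, φ (γ' t) y ∂ν1 = φ (γ t0) y * ν1 univ := by
      rw [← lintegral_const]
      refine lintegral_congr_ae ?_
      have h1 : ∀ᵐ t ∂ν1, t ∈ U ∩ γ ⁻¹' G := hs1
      have h2 : ∀ᵐ t ∂ν1, t ∉ B := by
        rw [ae_iff]
        simpa using hz1 B hB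
      filter_upwards [h1, h2] with t ht htB
      rw [heq t ht.1]
      exact hBt t ht.1 htB t0 ht0 ht0B
    have e0 : ∫⁻ t, φ (γ' t) y ∂ν0 = φ (γ t0) y * ν0 univ := by
      rw [← lintegral_const]
      refine lintegral_congr_ae ?_
      have h1 : ∀ᵐ t ∂ν0, t ∈ U \ γ ⁻¹' G := hs0
      have h2 : ∀ᵐ t ∂ν0, t ∉ B := by
        rw [ae_iff]
        simpa using hz0 B hB
      filter_upwards [h1, h2] with t ht htB
      rw [heq t ht.1]
      exact hBt t ht.1 htB t0 ht0 ht0B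
    rw [e1, e0]
    ring
  have hsw1 : ∫⁻ t, ∫⁻ y, φ (γ' t) y ∂μ ∂ν1 = ∫⁻ y, ∫⁻ t, φ (γ' t) y ∂ν1 ∂μ :=
    lintegral_lintegral_swap (f := fun t y => φ (γ' t) y) hf.aemeasurable
  have hsw0 : ∫⁻ t, ∫⁻ y, φ (γ' t) y ∂μ ∂ν0 = ∫⁻ y, ∫⁻ t, φ (γ' t) y ∂ν0 ∂μ :=
    lintegral_lintegral_swap (f := fun t y => φ (γ' t) y) hf.aemeasurable
  have hbal : ν0 univ * ∫⁻ t, ∫⁻ y, φ (γ' t) y ∂μ ∂ν1 =
      ν1 univ * ∫⁻ t, ∫⁻ y, φ (γ' t) y ∂μ ∂ν0 := by
    rw [hsw1, hsw0, ← lintegral_const_mul' _ _ (measure_ne_top ν0 univ),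
      ← lintegral_const_mul' _ _ (measure_ne_top ν1 univ)]
    exact lintegral_congr key
  have hr : r ≠ ∞ := by
    rintro rfl
    apply hc1
    refine Set.countable_empty.mono ?_
    rintro t ⟨-, ht⟩
    have ht' : (∞ : ℝ≥0∞) < ∫⁻ y, φ (γ t) y ∂μ := ht
    exact absurd ht' not_top_lt
  have hle : ∫⁻ t, ∫⁻ y, φ (γ' t) y ∂μ ∂ν0 ≤ r * ν0 univ := by
    rw [← lintegral_const]
    refine lintegral_mono_ae ?_
    have h1 : ∀ᵐ t ∂ν0, t ∈ U \ γ ⁻¹' G := hs0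
    filter_upwards [h1] with t ht
    rw [heq t ht.1]
    exact not_lt.1 ht.2
  have hlt : r * ν1 univ < ∫⁻ t, ∫⁻ y, φ (γ' t) y ∂μ ∂ν1 := by
    rw [← lintegral_const]
    refine lintegral_strict_mono (fun h0 => hu1 (by rw [h0]; simp)) hIγ.aemeasurable ?_ ?_
    · rw [lintegral_const]
      exact ENNReal.mul_ne_top hr (measure_ne_top ν1 univ)
    · have h1 : ∀ᵐ t ∂ν1, t ∈ U ∩ γ ⁻¹' G := hs1
      filter_upwards [h1] with t ht
      rw [heq t ht.1]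
      exact ht.2
  have h3 : ν0 univ * (r * ν1 univ) < ν0 univ * ∫⁻ t, ∫⁻ y, φ (γ' t) y ∂μ ∂ν1 :=
    (ENNReal.mul_lt_mul_iff_right hu0 (measure_ne_top ν0 univ)).2 hlt
  rw [hbal] at h3
  have h4 : ν1 univ * ∫⁻ t, ∫⁻ y, φ (γ' t) y ∂μ ∂ν0 ≤ ν1 univ * (r * ν0 univ) := by
    gcongr
  have h5 : ν1 univ * (r * ν0 univ) = ν0 univ * (r * ν1 univ) := by ring
  rw [h5] at h4
  exact absurd (h3.trans_le h4) (lt_irrefl _)

end Pool.Agent.R158.MM
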